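import Mathlib

set_option autoImplicit false

/-!
# Semi-span and surjective semi-span

A complete separable connected metric space whose semi-span is infinite and whose surjective
semi-span is zero: a ray `t ↦ (t / (1 + t), γ t)`, where `γ t` runs around larger and larger circles
through the origin in mutually orthogonal planes, together with the single cluster point `(1, 0)`.
-/

namespace Pool.Agent.Results.MP_2a9133_gt.InfiniteRatio

open Set Filter Topology
open scoped ENNReal NNReal BoundedContinuousFunction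

/-- `C ⊆ X × X` is `a`-separated: it is connected and `a ≤ d(x, y)` for every `(x, y) ∈ C`. -/
def Separated {X : Type} [MetricSpace X] (a : ℝ≥0) (C : Set (X × X)) : Prop :=
  IsConnected C ∧ ∀ x y : X, (x, y) ∈ C → (a : ℝ) ≤ dist x y

/-- The semi-span: the supremum in `[0, ∞]` of all `a ≥ 0` for which there is an `a`-separated set
one of whose two projections is contained in the other. -/
noncomputable def semiSpan (X : Type) [MetricSpace X] : ℝ≥0∞ :=
  sSup {e : ℝ≥0∞ | ∃ a : ℝ≥0, e = (a : ℝ≥0∞) ∧ ∃ C : Set (X × X), Separated a C ∧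
    (Prod.fst '' C ⊆ Prod.snd '' C ∨ Prod.snd '' C ⊆ Prod.fst '' C)}

/-- The surjective semi-span: the supremum in `[0, ∞]` of all `a ≥ 0` for which there is an
`a`-separated set one of whose two projections is the whole space. -/
noncomputable def surjectiveSemiSpan (X : Type) [MetricSpace X] : ℝ≥0∞ :=
  sSup {e : ℝ≥0∞ | ∃ a : ℝ≥0, e = (a : ℝ≥0∞) ∧ ∃ C : Set (X × X), Separated a C ∧
    (Prod.fst '' C = Set.univ ∨ Prod.snd '' C = Set.univ)}

/-- the loop `1 - exp (2 π i s)`, for `s` clamped to `[0, 1]` -/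
noncomputable def loop (s : ℝ) : ℂ :=
  1 - Complex.exp (((2 * Real.pi * max 0 (min s 1) : ℝ) : ℂ) * Complex.I)

lemma loop_eq {s : ℝ} (h0 : 0 ≤ s) (h1 : s ≤ 1) :
    loop s = 1 - Complex.exp (((2 * Real.pi * s : ℝ) : ℂ) * Complex.I) := by
  unfold loop
  rw [min_eq_left h1, max_eq_right h0]

lemma loop_of_le {s : ℝ} (h : s ≤ 0) : loop s = 0 := by
  unfold loop
  rw [min_eq_left (by linarith), max_eq_left h]
  simp

lemma loop_of_ge {s : ℝ} (h : 1 ≤ s) : loop s = 0 := by
  unfold loop
  rw [min_eq_right h, max_eq_right zero_le_one, mul_one]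
  have : Complex.exp (((2 * Real.pi : ℝ) : ℂ) * Complex.I) = 1 := by
    push_cast
    exact Complex.exp_two_pi_mul_I
  rw [this, sub_self]

lemma norm_loop_le (s : ℝ) : ‖loop s‖ ≤ 2 := by
  unfold loop
  refine (norm_sub_le _ _).trans ?_
  rw [Complex.norm_exp_ofReal_mul_I, norm_one]
  norm_num

lemma norm_exp_sub_exp_le (x y : ℝ) :
    ‖Complex.exp ((x : ℂ) * Complex.I) - Complex.exp ((y : ℂ) * Complex.I)‖ ≤ |x - y| := by
  have h : Complex.exp ((x : ℂ) * Complex.I) - Complex.exp ((y : ℂ) * Complex.I) =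
      Complex.exp ((y : ℂ) * Complex.I) * (Complex.exp (Complex.I * ((x - y : ℝ) : ℂ)) - 1) := by
    rw [mul_sub, mul_one, ← Complex.exp_add]
    congr 2
    push_cast
    ring
  rw [h, norm_mul, Complex.norm_exp_ofReal_mul_I, one_mul]
  simpa using Real.norm_exp_I_mul_ofReal_sub_one_le (x := x - y)

lemma norm_loop_sub_le (s t : ℝ) : ‖loop s - loop t‖ ≤ 2 * Real.pi * |s - t| := by
  have h : loop s - loop t =
      Complex.exp (((2 * Real.pi * max 0 (min t 1) : ℝ) : ℂ) * Complex.I) -
        Complex.exp (((2 * Real.pi * max 0 (min s 1) : ℝ) : ℂ) * Complex.I) := by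
    unfold loop
    ring
  rw [h]
  refine (norm_exp_sub_exp_le _ _).trans ?_
  rw [← mul_sub, abs_mul, abs_of_pos (by positivity : (0 : ℝ) < 2 * Real.pi), abs_sub_comm s t]
  refine mul_le_mul_of_nonneg_left ?_ (by positivity)
  refine (abs_max_sub_max_le_max _ _ _ _).trans (max_le (by simp) ?_)
  exact (abs_min_sub_min_le_max _ _ _ _).trans (max_le le_rfl (by simp))

/-- all loops at once, with values in the bounded sequences -/
noncomputable def loops (t : ℝ) : ℕ →ᵇ ℂ :=
  BoundedContinuousFunction.ofNormedAddCommGroupDiscrete (fun n : ℕ => loop (t - n)) 2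
    (fun _ => norm_loop_le _)

lemma loops_apply (t : ℝ) (n : ℕ) : loops t n = loop (t - n) := rfl

lemma dist_loops_le (s t : ℝ) : dist (loops s) (loops t) ≤ 2 * Real.pi * dist s t := by
  rw [BoundedContinuousFunction.dist_le (by positivity)]
  intro n
  rw [loops_apply, loops_apply, dist_eq_norm, Real.dist_eq]
  refine (norm_loop_sub_le _ _).trans (le_of_eq ?_)
  congr 2
  ring

lemma continuous_loops : Continuous loops := by
  have h : LipschitzWith (Real.toNNReal (2 * Real.pi)) loops :=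
    LipschitzWith.of_dist_le_mul fun s t => by
      rw [Real.coe_toNNReal _ (by positivity)]
      exact dist_loops_le s t
  exact h.continuous

/-- the curve of growing loops -/
noncomputable def gam (t : ℝ) : ℕ →ᵇ ℂ := (1 + t) • loops t

lemma gam_apply (t : ℝ) (n : ℕ) : gam t n = ((1 + t : ℝ) : ℂ) * loop (t - n) := by
  change (1 + t : ℝ) • (loops t n) = _
  rw [loops_apply, Complex.real_smul]

lemma continuous_gam : Continuous gam :=
  (continuous_const.add continuous_id).smul continuous_loops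

/-- the first coordinate -/
noncomputable def fc (t : ℝ) : ℝ := 1 - (1 + t)⁻¹

lemma fc_lt_one {t : ℝ} (h : 0 ≤ t) : fc t < 1 := by
  unfold fc
  have : 0 < (1 + t)⁻¹ := by positivity
  linarith

lemma fc_nonneg {t : ℝ} (h : 0 ≤ t) : 0 ≤ fc t := by
  unfold fc
  have : (1 + t)⁻¹ ≤ 1 := inv_le_one_of_one_le₀ (by linarith)
  linarith

lemma fc_lt_fc {s t : ℝ} (hs : 0 ≤ s) (h : s < t) : fc s < fc t := by
  unfold fc
  have : (1 + t)⁻¹ < (1 + s)⁻¹ := inv_strictAnti₀ (by linarith) (by linarith)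
  linarith

lemma fc_inj {s t : ℝ} (hs : 0 ≤ s) (ht : 0 ≤ t) (h : fc s = fc t) : s = t := by
  rcases lt_trichotomy s t with h1 | h1 | h1
  · exact absurd h (fc_lt_fc hs h1).ne
  · exact h1
  · exact absurd h (fc_lt_fc ht h1).ne'

lemma continuousOn_fc : ContinuousOn fc (Ici 0) := by
  unfold fc
  refine continuousOn_const.sub (ContinuousOn.inv₀ (by fun_prop) ?_)
  intro t ht
  have : (0 : ℝ) ≤ t := ht
  positivity

/-- the ray -/
noncomputable def ray (t : ℝ) : ℝ × (ℕ →ᵇ ℂ) := (fc t, gam t)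

lemma continuousOn_ray : ContinuousOn ray (Ici 0) :=
  continuousOn_fc.prodMk continuous_gam.continuousOn

/-- the underlying set of the example -/
def space : Set (ℝ × (ℕ →ᵇ ℂ)) := ray '' Ici 0 ∪ {(1, 0)}

lemma ray_mem {t : ℝ} (h : 0 ≤ t) : ray t ∈ space := Or.inl ⟨t, h, rfl⟩

lemma top_mem : ((1 : ℝ), (0 : ℕ →ᵇ ℂ)) ∈ space := Or.inr rfl

lemma gam_natCast (n : ℕ) : gam n = 0 := by
  ext m
  rw [gam_apply]
  have h : loop ((n : ℝ) - m) = 0 := by
    rcases le_or_gt n m with h | h
    · apply loop_of_le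
      have : (n : ℝ) ≤ m := by exact_mod_cast h
      linarith
    · apply loop_of_ge
      have : (m : ℝ) + 1 ≤ n := by exact_mod_cast h
      linarith
  rw [h, mul_zero]
  rfl

lemma isConnected_space : IsConnected space := by
  have h1 : IsConnected (ray '' Ici 0) := isConnected_Ici.image ray continuousOn_ray
  refine h1.subset_closure subset_union_left ?_
  rintro x (hx | hx)
  · exact subset_closure hx
  · rw [mem_singleton_iff] at hx
    subst hx
    rw [mem_closure_iff_seq_limit]
    refine ⟨fun n : ℕ => ray n, fun n => ⟨n, mem_Ici.mpr (Nat.cast_nonneg n), rfl⟩, ?_⟩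
    have h2 : ∀ n : ℕ, ray n = (fc n, 0) := fun n => by rw [ray, gam_natCast]
    simp_rw [h2]
    refine Tendsto.prodMk_nhds ?_ tendsto_const_nhds
    have h3 : Tendsto (fun n : ℕ => (1 + (n : ℝ))⁻¹) atTop (𝓝 0) :=
      tendsto_inv_atTop_zero.comp
        (tendsto_atTop_add_const_left _ _ tendsto_natCast_atTop_atTop)
    simpa [fc] using (tendsto_const_nhds (x := (1 : ℝ))).sub h3

lemma isClosed_space : IsClosed space := by
  apply IsSeqClosed.isClosed
  intro v a hv ha
  have h1 : Tendsto (fun k => (v k).1) atTop (𝓝 a.1) := (continuous_fst.tendsto a).comp ha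
  have h2 : Tendsto (fun k => (v k).2) atTop (𝓝 a.2) := (continuous_snd.tendsto a).comp ha
  have hle : ∀ k, 0 ≤ (v k).1 ∧ (v k).1 ≤ 1 := by
    intro k
    rcases hv k with ⟨t, ht, h⟩ | h
    · rw [← h]
      exact ⟨fc_nonneg ht, (fc_lt_one ht).le⟩
    · rw [mem_singleton_iff] at h
      rw [h]
      exact ⟨zero_le_one, le_rfl⟩
  have ha0 : 0 ≤ a.1 := ge_of_tendsto' h1 fun k => (hle k).1
  have ha1 : a.1 ≤ 1 := le_of_tendsto' h1 fun k => (hle k).2
  rcases lt_or_eq_of_le ha1 with hlt | heq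
  · -- the limit is on the ray
    have hev : ∀ᶠ k in atTop, (v k).1 < 1 := h1.eventually_lt_const hlt
    have hback : ∀ k, (v k).1 < 1 → (v k).2 = gam ((1 - (v k).1)⁻¹ - 1) := by
      intro k hk
      rcases hv k with ⟨t, ht, h⟩ | h
      · rw [← h]
        have : (1 - (ray t).1)⁻¹ - 1 = t := by
          change (1 - (1 - (1 + t)⁻¹))⁻¹ - 1 = t
          rw [sub_sub_cancel, inv_inv]
          ring
        rw [this]
        rfl
      · rw [mem_singleton_iff] at h
        rw [h] at hk
        exact absurd hk (lt_irrefl _)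
    have h3 : Tendsto (fun k => gam ((1 - (v k).1)⁻¹ - 1)) atTop (𝓝 (gam ((1 - a.1)⁻¹ - 1))) := by
      refine (continuous_gam.tendsto _).comp ?_
      exact ((tendsto_const_nhds.sub h1).inv₀ (by linarith)).sub_const 1
    have h4 : Tendsto (fun k => (v k).2) atTop (𝓝 (gam ((1 - a.1)⁻¹ - 1))) :=
      h3.congr' (hev.mono fun k hk => (hback k hk).symm)
    have h5 : a.2 = gam ((1 - a.1)⁻¹ - 1) := tendsto_nhds_unique h2 h4
    have h6 : (1 : ℝ) ≤ (1 - a.1)⁻¹ := by
      rw [one_le_inv₀ (by linarith)]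
      linarith
    refine Or.inl ⟨(1 - a.1)⁻¹ - 1, by simpa using h6, ?_⟩
    refine Prod.ext ?_ h5.symm
    change 1 - (1 + ((1 - a.1)⁻¹ - 1))⁻¹ = a.1
    rw [add_sub_cancel, inv_inv]
    ring
  · -- the limit is the cluster point
    refine Or.inr ?_
    rw [mem_singleton_iff]
    refine Prod.ext heq ?_
    ext m
    have h3 : Tendsto (fun k => (v k).2 m) atTop (𝓝 (a.2 m)) :=
      ((continuous_eval_const m).tendsto _).comp h2
    have hlt : fc (m + 1) < a.1 := by
      rw [heq]
      exact fc_lt_one (by positivity)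
    have hev : ∀ᶠ k in atTop, (v k).2 m = 0 := by
      filter_upwards [h1.eventually_const_lt hlt] with k hk
      rcases hv k with ⟨t, ht, h⟩ | h
      · rw [← h] at hk ⊢
        have hmt : (m : ℝ) + 1 < t := by
          by_contra hcon
          rw [not_lt] at hcon
          rcases lt_or_eq_of_le hcon with h' | h'
          · exact absurd (fc_lt_fc ht h') (not_lt.mpr hk.le)
          · rw [h'] at hk
            exact absurd hk (lt_irrefl _)
        change gam t m = 0
        rw [gam_apply, loop_of_ge (by linarith), mul_zero]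
      · rw [mem_singleton_iff] at h
        rw [h]
        rfl
    exact tendsto_nhds_unique h3 (tendsto_const_nhds.congr' (hev.mono fun k hk => hk.symm))

lemma isSeparable_space : TopologicalSpace.IsSeparable space := by
  refine TopologicalSpace.IsSeparable.union ?_ (Set.countable_singleton _).isSeparable
  rw [image_eq_range]
  exact TopologicalSpace.isSeparable_range (continuousOn_iff_continuous_domRestrict.mp continuousOn_ray)

/-- the first coordinate is injective on the space -/
lemma fst_inj {v w : ℝ × (ℕ →ᵇ ℂ)} (hv : v ∈ space) (hw : w ∈ space) (h : v.1 = w.1) : v = w := by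
  rcases hv with ⟨s, hs, rfl⟩ | hv
  · rcases hw with ⟨t, ht, rfl⟩ | hw
    · rw [fc_inj hs ht h]
    · rw [mem_singleton_iff] at hw
      subst hw
      exact absurd h (fc_lt_one hs).ne
  · rw [mem_singleton_iff] at hv
    subst hv
    rcases hw with ⟨t, ht, rfl⟩ | hw
    · exact absurd h.symm (fc_lt_one ht).ne
    · rw [mem_singleton_iff] at hw
      exact hw.symm

lemma fst_mem {v : ℝ × (ℕ →ᵇ ℂ)} (hv : v ∈ space) : 0 ≤ v.1 ∧ v.1 ≤ 1 := by
  rcases hv with ⟨t, ht, h⟩ | h
  · rw [← h]
    exact ⟨fc_nonneg ht, (fc_lt_one ht).le⟩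
  · rw [mem_singleton_iff] at h
    rw [h]
    exact ⟨zero_le_one, le_rfl⟩

lemma fc_zero : fc 0 = 0 := by simp [fc]

/-- a connected set with a surjective projection meets the diagonal -/
lemma meets_diagonal (C : Set (space × space)) (hC : IsConnected C)
    (hsurj : Prod.fst '' C = univ ∨ Prod.snd '' C = univ) : ∃ p ∈ C, p.1 = p.2 := by
  set h : space × space → ℝ := fun p => (p.1 : ℝ × (ℕ →ᵇ ℂ)).1 - (p.2 : ℝ × (ℕ →ᵇ ℂ)).1 with hh
  have hcont : Continuous h :=
    (continuous_fst.comp (continuous_subtype_val.comp continuous_fst)).sub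
      (continuous_fst.comp (continuous_subtype_val.comp continuous_snd))
  have hb : ∀ q : space, 0 ≤ (q : ℝ × (ℕ →ᵇ ℂ)).1 ∧ (q : ℝ × (ℕ →ᵇ ℂ)).1 ≤ 1 :=
    fun q => fst_mem q.2
  have key : ∃ p ∈ C, ∃ q ∈ C, h p ≤ 0 ∧ 0 ≤ h q := by
    rcases hsurj with hs | hs
    · have m0 : (⟨ray 0, ray_mem le_rfl⟩ : space) ∈ Prod.fst '' C := by rw [hs]; trivial
      have m1 : (⟨(1, 0), top_mem⟩ : space) ∈ Prod.fst '' C := by rw [hs]; trivial
      obtain ⟨p, hp, hp0⟩ := m0
      obtain ⟨q, hq, hq0⟩ := m1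
      refine ⟨p, hp, q, hq, ?_, ?_⟩
      · have e : (p.1 : ℝ × (ℕ →ᵇ ℂ)).1 = 0 := by rw [hp0]; exact fc_zero
        have := (hb p.2).1
        simp only [hh]
        linarith
      · have e : (q.1 : ℝ × (ℕ →ᵇ ℂ)).1 = 1 := by rw [hq0]
        have := (hb q.2).2
        simp only [hh]
        linarith
    · have m0 : (⟨ray 0, ray_mem le_rfl⟩ : space) ∈ Prod.snd '' C := by rw [hs]; trivial
      have m1 : (⟨(1, 0), top_mem⟩ : space) ∈ Prod.snd '' C := by rw [hs]; trivial
      obtain ⟨p, hp, hp0⟩ := m0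
      obtain ⟨q, hq, hq0⟩ := m1
      refine ⟨q, hq, p, hp, ?_, ?_⟩
      · have e : (q.2 : ℝ × (ℕ →ᵇ ℂ)).1 = 1 := by rw [hq0]
        have := (hb q.1).2
        simp only [hh]
        linarith
      · have e : (p.2 : ℝ × (ℕ →ᵇ ℂ)).1 = 0 := by rw [hp0]; exact fc_zero
        have := (hb p.1).1
        simp only [hh]
        linarith
  obtain ⟨p, hp, q, hq, h1, h2⟩ := key
  obtain ⟨r, hr, hr0⟩ := hC.isPreconnected.intermediate_value hp hq hcont.continuousOn ⟨h1, h2⟩
  refine ⟨r, hr, Subtype.ext (fst_inj r.1.2 r.2.2 ?_)⟩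
  simp only [hh] at hr0
  linarith

lemma surjectiveSemiSpan_space : surjectiveSemiSpan space = 0 := by
  unfold surjectiveSemiSpan
  rw [sSup_eq_bot.mpr]
  · rfl
  rintro e ⟨a, rfl, C, ⟨hC, hd⟩, hs⟩
  obtain ⟨p, hp, hpp⟩ := meets_diagonal C hC hs
  have h1 := hd p.1 p.2 hp
  rw [hpp, dist_self] at h1
  have h2 : a = 0 := le_antisymm (by exact_mod_cast h1) zero_le
  rw [h2]
  rfl

/-- points of the ray half a turn apart are far apart -/
lemma le_dist_ray {t : ℝ} (ht : 0 ≤ t) : 1 + t ≤ dist (ray t) (ray (t + 1 / 2)) := by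
  have hd : dist (gam t) (gam (t + 1 / 2)) ≤ dist (ray t) (ray (t + 1 / 2)) := by
    rw [Prod.dist_eq]
    exact le_max_right _ _
  refine le_trans ?_ hd
  have hco : ∀ m : ℕ, ‖gam t m - gam (t + 1 / 2) m‖ ≤ dist (gam t) (gam (t + 1 / 2)) := by
    intro m
    rw [← dist_eq_norm]
    exact BoundedContinuousFunction.dist_coe_le_dist m
  obtain ⟨n, hn⟩ : ∃ n : ℕ, n = ⌊t⌋₊ := ⟨_, rfl⟩
  have hn1 : (n : ℝ) ≤ t := by rw [hn]; exact Nat.floor_le ht
  have hn2 : t < n + 1 := by rw [hn]; exact Nat.lt_floor_add_one t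
  set E : ℂ := Complex.exp (((2 * Real.pi * (t - n) : ℝ) : ℂ) * Complex.I) with hE
  have hE1 : ‖E‖ = 1 := Complex.norm_exp_ofReal_mul_I _
  have hpi : Complex.exp (((Real.pi : ℝ) : ℂ) * Complex.I) = -1 := Complex.exp_pi_mul_I
  rcases le_total (t - n) (1 / 2) with h | h
  · have e1 : loop (t - n) = 1 - E := loop_eq (by linarith) (by linarith)
    have e2 : loop (t + 1 / 2 - n) = 1 + E := by
      rw [loop_eq (by linarith) (by linarith)]
      have : (((2 * Real.pi * (t + 1 / 2 - n) : ℝ) : ℂ)) * Complex.I =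
          ((2 * Real.pi * (t - n) : ℝ) : ℂ) * Complex.I + ((Real.pi : ℝ) : ℂ) * Complex.I := by
        push_cast
        ring
      rw [this, Complex.exp_add, hpi]
      ring
    have h1 := hco n
    rw [gam_apply, gam_apply, e1, e2] at h1
    have e3 : ((1 + t : ℝ) : ℂ) * (1 - E) - ((1 + (t + 1 / 2) : ℝ) : ℂ) * (1 + E) =
        -(((5 / 2 + 2 * t : ℝ) : ℂ) * E + ((1 / 2 : ℝ) : ℂ)) := by
      push_cast
      ring
    rw [e3, norm_neg] at h1
    have h2 : ‖((5 / 2 + 2 * t : ℝ) : ℂ) * E‖ = 5 / 2 + 2 * t := by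
      rw [norm_mul, hE1, mul_one, Complex.norm_real, Real.norm_of_nonneg (by linarith)]
    have h3 : ‖((1 / 2 : ℝ) : ℂ)‖ = 1 / 2 := by
      rw [Complex.norm_real, Real.norm_of_nonneg (by norm_num)]
    have h4 := norm_sub_le (((5 / 2 + 2 * t : ℝ) : ℂ) * E + ((1 / 2 : ℝ) : ℂ)) ((1 / 2 : ℝ) : ℂ)
    rw [add_sub_cancel_right] at h4
    linarith
  · have e1 : loop (t - n) = 1 - E := loop_eq (by linarith) (by linarith)
    have e2 : loop (t + 1 / 2 - n) = 0 := loop_of_ge (by linarith)
    have e3 : loop (t - (n + 1 : ℕ)) = 0 := loop_of_le (by push_cast; linarith)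
    have e4 : loop (t + 1 / 2 - (n + 1 : ℕ)) = 1 + E := by
      rw [loop_eq (by push_cast; linarith) (by push_cast; linarith)]
      have : (((2 * Real.pi * (t + 1 / 2 - (n + 1 : ℕ)) : ℝ) : ℂ)) * Complex.I =
          ((2 * Real.pi * (t - n) : ℝ) : ℂ) * Complex.I - ((Real.pi : ℝ) : ℂ) * Complex.I := by
        push_cast
        ring
      rw [this, Complex.exp_sub, hpi]
      ring
    have h1 := hco n
    have h2 := hco (n + 1)
    rw [gam_apply, gam_apply, e1, e2, mul_zero, sub_zero, norm_mul, Complex.norm_real,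
      Real.norm_of_nonneg (by linarith)] at h1
    rw [gam_apply, gam_apply, e3, e4, mul_zero, zero_sub, norm_neg, norm_mul, Complex.norm_real,
      Real.norm_of_nonneg (by linarith)] at h2
    have h3 : (2 : ℝ) ≤ ‖1 - E‖ + ‖1 + E‖ := by
      have h4 := norm_add_le (1 - E) (1 + E)
      have h5 : (1 - E) + (1 + E) = ((2 : ℝ) : ℂ) := by push_cast; ring
      rw [h5, Complex.norm_real, Real.norm_of_nonneg (by norm_num)] at h4
      exact h4
    have h4 : (1 + t) * ‖1 + E‖ ≤ (1 + (t + 1 / 2)) * ‖1 + E‖ :=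
      mul_le_mul_of_nonneg_right (by linarith) (norm_nonneg _)
    nlinarith [norm_nonneg (1 - E), norm_nonneg (1 + E)]

lemma semiSpan_space : semiSpan space = ⊤ := by
  refine ENNReal.eq_top_of_forall_nnreal_le fun r => ?_
  unfold semiSpan
  apply le_sSup
  refine ⟨r, rfl, ?_⟩
  have hr : (0 : ℝ) ≤ r := r.2
  -- the tail of the ray after the parameter `r`
  have hpos : ∀ t : Ici (r : ℝ), (0 : ℝ) ≤ t := fun t => hr.trans t.2
  let f : Ici (r : ℝ) → space × space := fun t =>
    (⟨ray t, ray_mem (hpos t)⟩, ⟨ray (t + 1 / 2), ray_mem (by linarith [hpos t])⟩)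
  have hf : Continuous f := by
    refine Continuous.prodMk ?_ ?_
    · refine Continuous.subtype_mk ?_ _
      exact continuousOn_ray.comp_continuous continuous_subtype_val fun t => hpos t
    · refine Continuous.subtype_mk ?_ _
      exact continuousOn_ray.comp_continuous (by fun_prop)
        fun t => mem_Ici.mpr (by linarith [hpos t])
  have hconn : ConnectedSpace (Ici (r : ℝ)) := isConnected_iff_connectedSpace.mp isConnected_Ici
  refine ⟨range f, ⟨isConnected_range hf, ?_⟩, Or.inr ?_⟩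
  · rintro x y ⟨t, ht⟩
    have h1 := le_dist_ray (hpos t)
    have h2 : (r : ℝ) ≤ t := t.2
    have hx : x = (f t).1 := by rw [ht]
    have hy : y = (f t).2 := by rw [ht]
    rw [hx, hy, Subtype.dist_eq]
    change (r : ℝ) ≤ dist (ray t) (ray (t + 1 / 2))
    linarith
  · rintro _ ⟨_, ⟨t, rfl⟩, rfl⟩
    refine ⟨f ⟨t + 1 / 2, ?_⟩, mem_range_self _, rfl⟩
    have h2 : (r : ℝ) ≤ t := t.2
    exact mem_Ici.mpr (by linarith)

/-- There is a complete separable connected metric space with infinite semi-span and zero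
surjective semi-span. -/
theorem result : ∃ (X : Type) (_ : MetricSpace X), ConnectedSpace X ∧ CompleteSpace X ∧
    TopologicalSpace.SeparableSpace X ∧ semiSpan X = ⊤ ∧ surjectiveSemiSpan X = 0 :=
  ⟨space, inferInstance, isConnected_iff_connectedSpace.mp isConnected_space,
    isClosed_space.completeSpace_coe, isSeparable_space.separableSpace, semiSpan_space,
    surjectiveSemiSpan_space⟩

end Pool.Agent.Results.MP_2a9133_gt.InfiniteRatio
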